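import Mathlib

set_option autoImplicit false

namespace Pool.Agent.Results.MP_f151b7_co.Stars

/-- the number of edges of `G` met by the vertex set `X` -/
noncomputable def meets {V : Type} (G : SimpleGraph V) (X : Set V) : ℕ :=
  (G.edgeSet ∩ {e | ∃ v ∈ X, v ∈ e}).ncard

/-- the star with `m` leaves -/
def star (m : ℕ) : SimpleGraph (Option (Fin m)) where
  Adj a b := a ≠ b ∧ (a = none ∨ b = none)
  symm := ⟨by rintro a b ⟨h, h'⟩; exact ⟨h.symm, h'.symm⟩⟩
  loopless := ⟨by rintro a ⟨h, -⟩; exact h rfl⟩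

def edge (m : ℕ) (j : Fin m) : Sym2 (Option (Fin m)) := s(none, some j)

lemma edge_inj (m : ℕ) : Function.Injective (edge m) := by
  intro i j h
  unfold edge at h
  simpa using h

lemma edgeSet_star (m : ℕ) : (star m).edgeSet = Set.range (edge m) := by
  ext e
  induction e using Sym2.ind with
  | _ a b =>
    rw [SimpleGraph.mem_edgeSet]
    constructor
    · rintro ⟨hne, h | h⟩
      · subst h
        cases b with
        | none => exact absurd rfl hne
        | some j => exact ⟨j, rfl⟩
      · subst h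
        cases a with
        | none => exact absurd rfl hne
        | some j => exact ⟨j, Sym2.eq_swap⟩
    · rintro ⟨j, hj⟩
      unfold edge at hj
      rw [Sym2.eq_iff] at hj
      rcases hj with ⟨h1, h2⟩ | ⟨h1, h2⟩
      · subst h1; subst h2; exact ⟨by simp, Or.inl rfl⟩
      · subst h1; subst h2; exact ⟨by simp, Or.inr rfl⟩

lemma ncard_edges (m : ℕ) : (star m).edgeSet.ncard = m := by
  rw [edgeSet_star, ← Set.image_univ, Set.ncard_image_of_injective _ (edge_inj m), Set.ncard_univ,
    Nat.card_eq_fintype_card, Fintype.card_fin]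

lemma meets_le (m k : ℕ) (f : Option (Fin m) → Fin k) (i : Fin k) (hi : i ≠ f none) :
    meets (star m) {v | f v = i} ≤ (Finset.univ.filter (fun j : Fin m => f (some j) = i)).card := by
  unfold meets
  rw [edgeSet_star]
  have hsub : (Set.range (edge m) ∩ {e | ∃ v ∈ {v | f v = i}, v ∈ e}) ⊆
      edge m '' ((Finset.univ.filter (fun j : Fin m => f (some j) = i) : Finset (Fin m)) : Set (Fin m)) := by
    rintro e ⟨⟨j, rfl⟩, v, hv, hve⟩
    refine ⟨j, ?_, rfl⟩
    unfold edge at hve
    rw [Sym2.mem_iff] at hve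
    rcases hve with rfl | rfl
    · exact absurd hv.symm hi
    · simpa using hv
  calc _ ≤ (edge m '' ((Finset.univ.filter (fun j : Fin m => f (some j) = i) : Finset (Fin m)) : Set (Fin m))).ncard :=
        Set.ncard_le_ncard hsub (Set.toFinite _)
    _ ≤ ((Finset.univ.filter (fun j : Fin m => f (some j) = i) : Finset (Fin m)) : Set (Fin m)).ncard :=
        Set.ncard_image_le (Set.toFinite _)
    _ = _ := Set.ncard_coe_finset _

/-- some class meets at most `q - 1` edges when `m < (k-1) q` -/
lemma exists_small (m k q : ℕ) (hm : m < (k - 1) * q) (f : Option (Fin m) → Fin k) :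
    ∃ i, meets (star m) {v | f v = i} < q := by
  by_contra hcon
  push Not at hcon
  have h1 : ∑ i ∈ Finset.univ.erase (f none), q ≤
      ∑ i ∈ Finset.univ.erase (f none), (Finset.univ.filter (fun j : Fin m => f (some j) = i)).card := by
    apply Finset.sum_le_sum
    intro i hi
    exact (hcon i).trans (meets_le m k f i (Finset.ne_of_mem_erase hi))
  have h2 : ∑ i ∈ Finset.univ.erase (f none), (Finset.univ.filter (fun j : Fin m => f (some j) = i)).card ≤
      ∑ i, (Finset.univ.filter (fun j : Fin m => f (some j) = i)).card :=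
    Finset.sum_le_sum_of_subset (Finset.erase_subset _ _)
  have h3 : ∑ i, (Finset.univ.filter (fun j : Fin m => f (some j) = i)).card = m := by
    have := Finset.card_eq_sum_card_fiberwise (s := (Finset.univ : Finset (Fin m)))
      (t := (Finset.univ : Finset (Fin k))) (f := fun j => f (some j)) (fun _ _ => by simp)
    rw [← this, Finset.card_univ, Fintype.card_fin]
  rw [Finset.sum_const, Finset.card_erase_of_mem (Finset.mem_univ _), Finset.card_univ,
    Fintype.card_fin, smul_eq_mul] at h1
  omega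

/-- For every `k ≥ 3` some graph with at least `k(k-1)/2` edges has no partition of the vertex set
into `k` classes each meeting at least `2m/(2k-1)` edges. -/
theorem result : ∀ k : ℕ, 3 ≤ k → ∃ (V : Type) (_ : Finite V) (G : SimpleGraph V),
    k.choose 2 ≤ G.edgeSet.ncard ∧
    ∀ f : V → Fin k, ∃ i : Fin k,
      (meets G {v | f v = i} : ℝ) < 2 * (G.edgeSet.ncard : ℝ) / (2 * (k : ℝ) - 1) := by
  intro k hk
  obtain ⟨t, rfl⟩ : ∃ t, k = t + 3 := ⟨k - 3, by omega⟩
  -- `q = 2k - 4 = 2t + 2`, `m = (k-1) q - 1 = (t+2)(2t+2) - 1`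
  refine ⟨Option (Fin ((t + 2) * (2 * t + 2) - 1)), inferInstance, star ((t + 2) * (2 * t + 2) - 1), ?_, ?_⟩
  · rw [ncard_edges, Nat.choose_two_right]
    have h1 : (t + 3) * (t + 3 - 1) / 2 ≤ (t + 2) * (2 * t + 2) - 1 := by
      apply Nat.div_le_of_le_mul
      have h2 : t + 3 - 1 = t + 2 := by omega
      rw [h2]
      have h3 : 1 ≤ (t + 2) * (2 * t + 2) := by nlinarith
      zify [h3]
      nlinarith
    exact h1
  · intro f
    have hpos : 1 ≤ (t + 2) * (2 * t + 2) := by nlinarith
    obtain ⟨i, hi⟩ := exists_small ((t + 2) * (2 * t + 2) - 1) (t + 3) (2 * t + 2) (by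
      have : t + 3 - 1 = t + 2 := by omega
      rw [this]; omega) f
    refine ⟨i, ?_⟩
    rw [ncard_edges]
    have h1 : (meets (star ((t + 2) * (2 * t + 2) - 1)) {v | f v = i} : ℝ) ≤ 2 * t + 1 := by
      have : meets (star ((t + 2) * (2 * t + 2) - 1)) {v | f v = i} ≤ 2 * t + 1 := by omega
      exact_mod_cast this
    have h2 : (((t + 2) * (2 * t + 2) - 1 : ℕ) : ℝ) = ((t : ℝ) + 2) * (2 * t + 2) - 1 := by
      rw [Nat.cast_sub hpos]; push_cast; ring
    rw [h2]
    have ht : (0:ℝ) ≤ t := Nat.cast_nonneg t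
    rw [lt_div_iff₀ (by push_cast; linarith)]
    push_cast
    nlinarith

end Pool.Agent.Results.MP_f151b7_co.Stars
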